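import Pool.Agent.Y273.VI.Fin

/-!
# Morrey's problem on matrices with positive determinant, functions affine in the largest
singular value

Let `W` be a function of a real `2 × 2` matrix whose values at the matrices with positive
determinant are `a(v) s + b(v)`, where `s ≥ v > 0` are the singular values (so `s = ‖A‖` and
`v = det A / ‖A‖`) and `a, b` are arbitrary functions, which may be unbounded as `v → 0`.
If `W` is rank-one convex on the set of matrices with positive determinant, then the Morrey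
inequality holds at every matrix with positive determinant and for every Lipschitz test map which
keeps the determinant positive almost everywhere and for which the positive part of the energy is
integrable.  Examples are `s / v + 2 log v` and `v ^ (-p) ((p / 2) s / v - 1 - p / 2)`, `p > 0`.
-/

set_option autoImplicit false

namespace Pool.Agent.Results.MP_515557_an.AffineInLargestSingularValue

open MeasureTheory

/-- the matrix `F₀ + Dϑ(x)` -/
noncomputable def Grad (F₀ : Matrix (Fin 2) (Fin 2) ℝ) (ϑ : (Fin 2 → ℝ) → (Fin 2 → ℝ))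
    (x : Fin 2 → ℝ) : Matrix (Fin 2) (Fin 2) ℝ :=
  F₀ + LinearMap.toMatrix'
    ((fderiv ℝ ϑ x : (Fin 2 → ℝ) →L[ℝ] (Fin 2 → ℝ)) : (Fin 2 → ℝ) →ₗ[ℝ] (Fin 2 → ℝ))

/-- convexity along the segments in rank-one directions between matrices with positive
determinant -/
def RankOneConvexPos (W : Matrix (Fin 2) (Fin 2) ℝ → ℝ) : Prop :=
  ∀ F H : Matrix (Fin 2) (Fin 2) ℝ, H.rank = 1 → 0 < F.det → 0 < (F + H).det →
    ∀ t : ℝ, 0 ≤ t → t ≤ 1 → W ((1 - t) • F + t • (F + H)) ≤ (1 - t) * W F + t * W (F + H)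

/-- the Morrey inequality at matrices `F₀` with positive determinant, for Lipschitz maps `ϑ`
vanishing off a bounded open set `Ω` such that `det (F₀ + Dϑ) > 0` almost everywhere on `Ω` and the
positive part of `W(F₀ + Dϑ)` is integrable on `Ω` -/
def QuasiconvexPos (W : Matrix (Fin 2) (Fin 2) ℝ → ℝ) : Prop :=
  ∀ F₀ : Matrix (Fin 2) (Fin 2) ℝ, 0 < F₀.det → ∀ Ω : Set (Fin 2 → ℝ),
    IsOpen Ω → Bornology.IsBounded Ω →
    ∀ ϑ : (Fin 2 → ℝ) → (Fin 2 → ℝ), (∃ K, LipschitzWith K ϑ) → (∀ x, x ∉ Ω → ϑ x = 0) →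
      (∀ᵐ x ∂(volume.restrict Ω), 0 < (Grad F₀ ϑ x).det) →
      ∫⁻ x in Ω, ENNReal.ofReal (W (Grad F₀ ϑ x)) ≠ ⊤ →
      IntegrableOn (fun x => W (Grad F₀ ϑ x)) Ω ∧
        W F₀ * (volume Ω).toReal ≤ ∫ x in Ω, W (Grad F₀ ϑ x)

open scoped Matrix.Norms.L2Operator in
/-- Let `W(A) = a(det A / ‖A‖) ‖A‖ + b(det A / ‖A‖)` for all real `2 × 2` matrices `A` with
`det A > 0`, where `‖A‖` is the operator norm of `A` on the Euclidean plane and `a, b` are
arbitrary.  If `W` is rank-one convex on the matrices with positive determinant, then `W` is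
quasiconvex there. -/
theorem result (a b : ℝ → ℝ) (W : Matrix (Fin 2) (Fin 2) ℝ → ℝ)
    (hW : ∀ A : Matrix (Fin 2) (Fin 2) ℝ, 0 < A.det →
      W A = a (A.det / ‖A‖) * ‖A‖ + b (A.det / ‖A‖))
    (hR : RankOneConvexPos W) : QuasiconvexPos W :=
  fun F₀ h0 _ hΩ hb _ hϑ hz hpos hfin =>
    Pool.Agent.Y273.VI.gl_main a b W hW hR F₀ h0 ⟨hΩ, hb, hϑ, hz⟩ hpos hfin

end Pool.Agent.Results.MP_515557_an.AffineInLargestSingularValue
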