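import Pool.Agent.Y332.MD.Main

/-!
# Morrey's problem for `W(A) = Ψ(s, v)` with `Ψ_svv ≤ 0` and `Ψ_ssv` of one sign

`s = |A|` is the operator norm (the largest singular value) and `v = det A / |A|` is the smallest
singular value with the sign of the determinant.  `Ψ` is a function of class `C³` of two real
variables.  If `Ψ_svv ≤ 0` and `Ψ_ssv ≤ 0` (or `Ψ_svv ≤ 0` and `Ψ_ssv ≥ 0`) where `|v| < s`, then
rank-one convexity of `W` implies quasiconvexity.

Proof: the functions `(R - s)₊ (r - v)₊ + (R + r) |u_z|` (`- R < r ≤ R`) are quasiconvex (they are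
suprema of translates of Sverak's function in the variables `(u_z, u_zbar)`).  For a given matrix
with singular values `s₀ > |v₀|` a function which supports `W` from below is obtained by
integrating these kernels in `R` against `-Ψ_ssv(R, v₀) dR` along a curve `r = r(R)`, defined by
`Ψ_sv(R, v₀) = Ψ_sv(max(s₀, r), r)`, together with an affine function of `|u_z|`, `|u_zbar|` and
`det`.
-/

set_option autoImplicit false

namespace Pool.Agent.Results.MP_515557_an.MonotoneMixedDerivative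

open scoped Matrix.Norms.L2Operator in
/-- Let `Ψ : ℝ² → ℝ` be of class `C³` and `W(A) = Ψ(‖A‖, det A / ‖A‖)` for all real `2 × 2`
matrices `A`, where `‖A‖` is the operator norm of `A` on the Euclidean plane (`0 / 0 = 0`).
Suppose that, on the set `|v| < s`, `Ψ_ssv ≤ 0` everywhere or `Ψ_ssv ≥ 0` everywhere, and
`Ψ_svv ≤ 0` everywhere.  If `W` is rank-one convex then `W` is quasiconvex. -/
theorem result :
    ∀ (Ψ : ℝ → ℝ → ℝ) (W : Matrix (Fin 2) (Fin 2) ℝ → ℝ),
      ContDiff ℝ 3 (fun z : ℝ × ℝ => Ψ z.1 z.2) →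
      (∀ A : Matrix (Fin 2) (Fin 2) ℝ, W A = Ψ ‖A‖ (A.det / ‖A‖)) →
      ((∀ s v : ℝ, |v| < s →
          deriv (fun x => deriv (fun y => deriv (fun z => Ψ y z) v) x) s ≤ 0) ∨
        (∀ s v : ℝ, |v| < s →
          0 ≤ deriv (fun x => deriv (fun y => deriv (fun z => Ψ y z) v) x) s)) →
      (∀ s v : ℝ, |v| < s →
          deriv (fun x => deriv (fun y => deriv (fun z => Ψ y z) x) s) v ≤ 0) →
      (∀ F H : Matrix (Fin 2) (Fin 2) ℝ, H.rank = 1 →
        ∀ t : ℝ, 0 ≤ t → t ≤ 1 →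
          W ((1 - t) • F + t • (F + H)) ≤ (1 - t) * W F + t * W (F + H)) →
      ∀ F₀ : Matrix (Fin 2) (Fin 2) ℝ, ∀ Ω : Set (Fin 2 → ℝ),
        IsOpen Ω → Bornology.IsBounded Ω →
        ∀ ϑ : (Fin 2 → ℝ) → (Fin 2 → ℝ), (∃ K, LipschitzWith K ϑ) →
          (∀ x, x ∉ Ω → ϑ x = 0) →
          W F₀ * (MeasureTheory.volume Ω).toReal ≤
            ∫ x in Ω, W (F₀ + LinearMap.toMatrix'
              ((fderiv ℝ ϑ x : (Fin 2 → ℝ) →L[ℝ] (Fin 2 → ℝ)) :
                (Fin 2 → ℝ) →ₗ[ℝ] (Fin 2 → ℝ))) :=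
  fun Ψ W hΨ hW H1 H2 hR => Pool.Agent.Y332.MD.main Ψ W hW hΨ H1 H2 hR

end Pool.Agent.Results.MP_515557_an.MonotoneMixedDerivative
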