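import Pool.Agent.Y270.MO.Fin

/-!
# Rank-one convexity and quasiconvexity: maps with a one-parameter family of affine data

Every rank-one convex function of square matrices satisfies the quasiconvexity inequality for the
test maps of the class `Cls` (smallest class containing the maps `A(ρ(x)) x + b(ρ(x))` with a
scalar function `ρ` and stable under substitution where the map is affine and under limits).
-/

set_option autoImplicit false

namespace Pool.Agent.Results.MP_515557_an.OneParameterMaps

open Pool.Agent.Y270.MO (Cls)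

/-- Let `W` be a rank-one convex function on real `n × n` matrices, `Ω` a bounded open set, `ϑ` a map
that vanishes off `Ω`, and `F₀`, `c` such that the map `F₀ x + c + ϑ(x)` belongs to the class
`Cls Ω F₀ c`.  Then `|Ω| W(F₀) ≤ ∫_Ω W(F₀ + Dϑ)`.  (For `n = 2` this is the case of Morrey's problem
where the test map has the stated form.) -/
theorem result :
    ∀ (n : ℕ) (W : Matrix (Fin n) (Fin n) ℝ → ℝ),
      (∀ F H : Matrix (Fin n) (Fin n) ℝ, H.rank = 1 →
        ∀ t : ℝ, 0 ≤ t → t ≤ 1 →
          W ((1 - t) • F + t • (F + H)) ≤ (1 - t) * W F + t * W (F + H)) →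
      ∀ (F₀ : Matrix (Fin n) (Fin n) ℝ) (c : Fin n → ℝ) (Ω : Set (Fin n → ℝ)),
        IsOpen Ω → Bornology.IsBounded Ω →
        ∀ ϑ : (Fin n → ℝ) → (Fin n → ℝ),
          Cls Ω F₀ c (fun x => F₀.mulVec x + c + ϑ x) →
          W F₀ * (MeasureTheory.volume Ω).toReal ≤
            ∫ x in Ω, W (F₀ + LinearMap.toMatrix'
              ((fderiv ℝ ϑ x : (Fin n → ℝ) →L[ℝ] (Fin n → ℝ)) :
                (Fin n → ℝ) →ₗ[ℝ] (Fin n → ℝ))) :=
  fun _ W hW F₀ c Ω hΩ hb ϑ hc => Pool.Agent.Y270.MO.final W hW F₀ c Ω hΩ hb ϑ hc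

end Pool.Agent.Results.MP_515557_an.OneParameterMaps
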